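import Pool.Agent.R3B.StmtsB

/-!
# Squad R3B, row FIN: the theorem
-/

set_option autoImplicit false

namespace Pool.Agent.R3B.H17

open Set Filter Topology MeasureTheory
open Pool.Agent.BE01F Pool.Agent.R3B
open Pool.Agent.Helper72_Shell (En)

theorem fin (hBRT : BrtStmt) (hSHA : ShaStmt) (hSHB : ShbStmt) (hPRF : PrfStmt)
    (hSLB : SlbStmt) (hENG : EngStmt) : FinStmt := by
  intro a α R ha hα hα2 hR
  obtain ⟨P, hP, c, C, hc, hC, hE⟩ := hBRT a α R ha hα hα2 hR
  obtain ⟨Y, hYc, hYp, hY⟩ := hSHB R P hP.cont hP.per (hSHA a α R P ha hα hR hP)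
  obtain ⟨w, V, Z, A, B, C', hPrf, hEn⟩ := hPRF a α R P Y ha hα hR hP hYc hYp hY
  have hcC : c ≤ C := by
    have h := hE 0 le_rfl
    simp only [add_zero, Real.one_rpow, mul_one] at h
    exact h.1.trans h.2
  have hpi : (0 : ℝ) < 8 * Real.pi := by positivity
  refine ⟨_, _, _, _, hSLB a α R w V Z A B C' ha hα hR hPrf, 8 * Real.pi * c, 8 * Real.pi * C,
    mul_pos hpi hc, mul_le_mul_of_nonneg_left hcC hpi.le, fun t ht => ?_⟩
  have h1 : energy (Bl R) (fun s => rf (V s)) (fun s => rg (w s) (Z s)) t =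
      8 * Real.pi * En R P t := by
    rw [hENG a α R w V Z A B C' ha hα hR hPrf t ht, hEn t ht]
    ring
  rw [h1]
  obtain ⟨h2, h3⟩ := hE t ht
  constructor
  · rw [mul_assoc]
    exact mul_le_mul_of_nonneg_left h2 hpi.le
  · rw [mul_assoc (8 * Real.pi) C]
    exact mul_le_mul_of_nonneg_left h3 hpi.le

end Pool.Agent.R3B.H17
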